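import Pool.Agent.W95.EQ.Stm

/-!
# Project EQM, part ACTG: rational maps send type II points to type II points
-/

open Polynomial Topology Filter

namespace Pool.Agent.W403.EQACTG

open Pool.Agent.W95.BK Pool.Agent.W95.EQ

universe u

section
variable {K : Type u} [NontriviallyNormedField K] [IsUltrametricDist K]

theorem le_gauss (a : K) (r : ℝ) (hr : 0 < r) (h : K[X]) (i : ℕ) :
    ‖(taylor a h).coeff i‖ * r ^ i ≤ gauss a r hr h :=
  le_gaussNorm (NormedField.toAbsoluteValue K) (taylor a h) hr.le i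

theorem exists_gauss (a : K) (r : ℝ) (hr : 0 < r) (h : K[X]) :
    ∃ i, gauss a r hr h = ‖(taylor a h).coeff i‖ * r ^ i :=
  exists_eq_gaussNorm (NormedField.toAbsoluteValue K) r (taylor a h)

omit [IsUltrametricDist K] in
theorem Q_ne [IsAlgClosed K] (f : RMap K) : f.Q ≠ 0 := by
  intro h
  have h1 := f.cop
  rw [h] at h1
  have h2 : IsUnit f.P := isCoprime_zero_right.1 h1
  have h3 : f.P.natDegree = 0 := natDegree_eq_zero_of_isUnit h2
  have h4 := f.deg_eq
  rw [h, h3, natDegree_zero, max_self] at h4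
  have := f.pos
  omega

end

theorem main : S_ACT.{u} → S_VAL.{u} → S_ISO.{u} → S_GLAM.{u} → S_AVOID.{u} → S_ACTG.{u} := by
  intro hACT hVAL hISO hGLAM hAVOID K _ _ _ f a c r hr hc
  have hx : HK (gauss a r hr) := by
    intro b hb
    have h1 := (hGLAM K a b).2 r hr
    rw [hb, (hGLAM K b b).1, sub_self, norm_zero] at h1
    have h2 : r ≤ 0 := by rw [h1]; exact le_max_right _ _
    linarith
  obtain ⟨y, hy, hfy, -, hlam⟩ := (hACT K f).1 (gauss a r hr) hx
  have hQ0 : gauss a r hr f.Q ≠ 0 := (hAVOID K (gauss a r hr) hx).1 f.Q (Q_ne f)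
  have hQpos : 0 < gauss a r hr f.Q := lt_of_le_of_ne ((gauss a r hr).nonneg' _) (Ne.symm hQ0)
  obtain ⟨i, hi⟩ := exists_gauss a r hr f.Q
  have hqi : (taylor a f.Q).coeff i ≠ 0 := by
    intro h
    rw [hi, h, norm_zero, zero_mul] at hQ0
    exact hQ0 rfl
  have hri : 0 < r ^ i := pow_pos hr i
  set b : K := (taylor a f.P).coeff i / (taylor a f.Q).coeff i with hb
  have hbe : ∀ e : K, ‖b - e‖ ≤ lam y e := by
    intro e
    have h1 : b - e = (taylor a (f.P - C e * f.Q)).coeff i / (taylor a f.Q).coeff i := by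
      rw [map_sub, taylor_mul, taylor_C, coeff_sub, coeff_C_mul, hb]
      field_simp
    have h2 := le_gauss a r hr (f.P - C e * f.Q) i
    rw [h1, norm_div, hlam e, hi]
    rw [div_le_div_iff₀ (norm_pos_iff.2 hqi) (by positivity)]
    have h3 : 0 ≤ ‖(taylor a f.Q).coeff i‖ := norm_nonneg _
    calc ‖(taylor a (f.P - C e * f.Q)).coeff i‖ * (‖(taylor a f.Q).coeff i‖ * r ^ i)
        = (‖(taylor a (f.P - C e * f.Q)).coeff i‖ * r ^ i) * ‖(taylor a f.Q).coeff i‖ := by ring
      _ ≤ gauss a r hr (f.P - C e * f.Q) * ‖(taylor a f.Q).coeff i‖ :=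
        mul_le_mul_of_nonneg_right h2 h3
  have ht : 0 < lam y b := by
    have h1 : y (X - C b) ≠ 0 := (hAVOID K y hy).1 _ (X_sub_C_ne_zero b)
    exact lt_of_le_of_ne (y.nonneg' _) (Ne.symm h1)
  have hmin : ∀ e : K, lam y e = max ‖b - e‖ (lam y b) := by
    intro e
    apply le_antisymm
    · have h1 := (hISO K y e b).1
      rw [max_comm, norm_sub_rev b e]
      exact h1
    · apply max_le (hbe e)
      have h1 := (hISO K y b e).1
      exact h1.trans (max_le le_rfl (hbe e))
  have heq : y = gauss b (lam y b) ht := by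
    apply BA.ext
    intro h
    rw [hVAL K y h, hVAL K (gauss b (lam y b) ht) h]
    congr 2
    apply Multiset.map_congr rfl
    intro w _
    rw [(hGLAM K b w).2 (lam y b) ht, hmin w]
  obtain ⟨j, hj⟩ := exists_gauss a r hr (f.P - C b * f.Q)
  refine ⟨b, ((taylor a (f.P - C b * f.Q)).coeff j * c ^ j) / ((taylor a f.Q).coeff i * c ^ i),
    lam y b, ht, ?_, ?_⟩
  · rw [norm_div, norm_mul, norm_mul, norm_pow, norm_pow, hc, ← hi, ← hj, ← hlam b]
  · rw [hfy, ← heq]

end Pool.Agent.W403.EQACTG
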